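import Mathlib

set_option autoImplicit false

namespace Pool.Agent.H.MP_d37bef_lc

open Set Filter Function Cardinal Topology MeasureTheory ProbabilityTheory

/-- the series of `a` converges -/
def Conv (a : ℕ → ℚ) : Prop :=
  ∃ l : ℝ, Tendsto (fun n => ∑ i ∈ Finset.range n, (a i : ℝ)) atTop (𝓝 l)

/-- the series of `a` converges conditionally -/
def CC (a : ℕ → ℚ) : Prop := Conv a ∧ ¬ Summable fun i => |(a i : ℝ)|

/-- subseries number for the property `P` of the subseries -/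
noncomputable def ss (P : (ℕ → ℚ) → Prop) : Cardinal.{0} :=
  sInf {c | ∃ 𝒳 : Set (Set ℕ), (∀ X ∈ 𝒳, X.Infinite ∧ Xᶜ.Infinite) ∧
    (∀ a, CC a → ∃ X ∈ 𝒳, P fun n => a (Nat.nth (· ∈ X) n)) ∧ #𝒳 = c}

/-- the dominating number -/
noncomputable def dd : Cardinal.{0} :=
  sInf {c | ∃ D : Set (ℕ → ℕ), (∀ f : ℕ → ℕ, ∃ g ∈ D, ∀ᶠ n in atTop, f n ≤ g n) ∧ #D = c}

/-- coin-tossing measure on the Cantor space -/
noncomputable def μ : Measure (ℕ → Bool) := Measure.infinitePi fun _ => uniformOn Set.univ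

/-- cov(N) -/
noncomputable def covN : Cardinal.{0} :=
  sInf {c | ∃ F : Set (Set (ℕ → Bool)), (∀ N ∈ F, μ N = 0) ∧ ⋃₀ F = Set.univ ∧ #F = c}

/-- localization number for functions below `b` and slaloms of width `2 ^ n` -/
noncomputable def dLc (b : ℕ → ℕ) : Cardinal.{0} :=
  sInf {c | ∃ 𝒮 : Set (ℕ → Finset ℕ), (∀ S ∈ 𝒮, ∀ n, (S n).card ≤ 2 ^ n) ∧
    (∀ f : ℕ → ℕ, (∀ n, f n < b n) → ∃ S ∈ 𝒮, ∀ᶠ n in atTop, f n ∈ S n) ∧ #𝒮 = c}

theorem sub {X : Set ℕ} (hX : X.Infinite) (a : ℕ → ℝ) (l : ℝ) :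
    Tendsto (fun n => ∑ i ∈ Finset.range n, a (Nat.nth (· ∈ X) i)) atTop (𝓝 l) ↔
      Tendsto (fun n => ∑ i ∈ Finset.range n, X.indicator a i) atTop (𝓝 l) := by
  classical
  have h : ∀ n, ∑ i ∈ Finset.range n, X.indicator a i =
      ∑ i ∈ Finset.range (Nat.count (· ∈ X) n), a (Nat.nth (· ∈ X) i) := fun n => by
    induction n with
    | zero => simp
    | succ n ih =>
      by_cases c : n ∈ X <;>
        simp [Finset.sum_range_succ, Nat.count_succ, ih, c, Nat.nth_count (p := (· ∈ X))]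
  refine ⟨fun c => ?_, fun c => ?_⟩
  · simp only [h]
    exact c.comp (tendsto_atTop_atTop_of_monotone (Nat.count_monotone _) fun n =>
      ⟨_, (Nat.count_nth_of_infinite hX n).ge⟩)
  · exact (c.comp (Nat.nth_strictMono (p := (· ∈ X)) hX).tendsto_atTop).congr fun n =>
      (h _).trans (by rw [Nat.count_nth_of_infinite (p := (· ∈ X)) hX])

theorem blocks (a : ℕ → ℝ) (s : ℕ → ℝ) (hs : ∀ n, s (n + 1) = s n + a n) {l : ℝ}
    (hl : Tendsto s atTop (𝓝 l)) (p q : ℕ → ℕ) (h1 : ∀ n, p n < q n) (h2 : ∀ n, q n < p (n + 1))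
    (h3 : Summable fun n => s (q n) - s (p n)) : ∃ l, Tendsto (fun n => ∑ i ∈ Finset.range n,
      {i | ∃ n, p n ≤ i ∧ i < q n}.indicator a i) atTop (𝓝 l) := by
  have hp : StrictMono p := strictMono_nat_of_lt_succ fun n => (h1 n).trans (h2 n)
  set P := fun n => ∑ i ∈ Finset.range n, {i | ∃ n, p n ≤ i ∧ i < q n}.indicator a i
  have k1 : ∀ n N, p n ≤ N → N ≤ p (n + 1) → P N = P (p n) + (s (min N (q n)) - s (p n)) := by
    intro n N h
    induction N, h using Nat.le_induction with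
    | base => simp [(h1 n).le]
    | succ N h ih =>
      intro c
      rw [show P (N + 1) = P N + _ from Finset.sum_range_succ _ _, ih (by omega)]
      by_cases d : N < q n
      · rw [indicator_of_mem (show N ∈ {i | ∃ n, p n ≤ i ∧ i < q n} from ⟨n, h, d⟩),
          min_eq_left (Nat.succ_le_of_lt d), min_eq_left d.le, hs]; ring
      · rw [indicator_of_notMem, min_eq_right (by omega), min_eq_right (by omega), add_zero]
        rintro ⟨m, m1, m2⟩
        rcases lt_trichotomy m n with e | rfl | e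
        · have := hp.monotone (Nat.succ_le_of_lt e); have := h2 m; simp at *; omega
        · omega
        · have := hp.monotone (Nat.succ_le_of_lt e); simp at *; omega
  have k2 : ∀ n, P (p n) = P (p 0) + ∑ k ∈ Finset.range n, (s (q k) - s (p k)) := fun n => by
    induction n with
    | zero => simp
    | succ n ih => rw [k1 n _ (hp.monotone n.le_succ) le_rfl, ih, Finset.sum_range_succ,
        min_eq_right (h2 n).le, add_assoc]
  have e : ∀ N, ∃ n, N < p (n + 1) := fun N => ⟨N, (hp.le_apply (x := N + 1))⟩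
  have k3 : Tendsto (fun N => Nat.find (e N)) atTop atTop := tendsto_atTop.2 fun k =>
    (eventually_ge_atTop (p k)).mono fun N h => (Nat.le_find_iff _ _).2 fun m c =>
      not_lt.2 ((hp.monotone c).trans h)
  have k4 : ∀ᶠ N in atTop, p (Nat.find (e N)) ≤ N := (eventually_ge_atTop (p 0)).mono fun N h => by
    rcases d : Nat.find (e N) with _ | m
    exacts [h, not_lt.1 (Nat.find_min (e N) (d ▸ m.lt_succ_self))]
  have k5 := hp.tendsto_atTop.comp k3
  refine ⟨_, ((((h3.hasSum.tendsto_sum_nat.comp k3).const_add (P (p 0))).add ((hl.comp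
    (tendsto_atTop_mono' _ (f₂ := fun N => min N (q (Nat.find (e N)))) (k4.mono fun N h =>
      le_min h (h1 _).le) k5)).sub (hl.comp k5))).congr' (k4.mono fun N h => ?_))⟩
  rw [k1 _ N h (Nat.find_spec (e N)).le, k2 (Nat.find _)]; rfl

theorem up : ∃ b : ℕ → ℕ, ∀ 𝒮 : Set (ℕ → Finset ℕ), (∀ S ∈ 𝒮, ∀ n, (S n).card ≤ 2 ^ n) →
    (∀ f : ℕ → ℕ, (∀ n, f n < b n) → ∃ S ∈ 𝒮, ∀ᶠ n in atTop, f n ∈ S n) →
    ∃ 𝒳 : Set (Set ℕ), (∀ X ∈ 𝒳, X.Infinite ∧ Xᶜ.Infinite) ∧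
      (∀ a, CC a → ∃ X ∈ 𝒳, CC fun n => a (Nat.nth (· ∈ X) n)) ∧ #𝒳 ≤ #𝒮 + #𝒮 := by
  let L : ℕ → ℕ := fun n => (2 ^ n + 1) ^ 2 ^ n + 1
  let A : ℕ → Type := fun n => Fin (L n) → Fin (2 ^ n + 1)
  let e : ∀ n, A n → ℕ := fun n x => Fintype.equivFin (A n) x
  have he : ∀ n, Injective (e n) := fun n => Fin.val_injective.comp (Equiv.injective _)
  let g : ℕ → ℕ := fun n => ∑ k ∈ Finset.range n, L k
  refine ⟨fun n => Fintype.card (A n), fun 𝒮 h1 h2 => ?_⟩
  have : ∀ S : 𝒮, ∀ n, ∃ i j : Fin (L n), i < j ∧ ∀ x : A n, e n x ∈ S.1 n → x i = x j :=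
    fun S n => by
    obtain ⟨i, j, c, d⟩ := Fintype.exists_ne_map_eq_of_card_lt
      (fun (i : Fin (L n)) (x : S.1 n) => invFun (e n) x i) (by
        simpa [L, Nat.lt_succ_iff] using Nat.pow_le_pow_right (by simp) (h1 _ S.2 n))
    have d : ∀ x : A n, e n x ∈ S.1 n → x i = x j := fun x h => by
      simpa [leftInverse_invFun (he n) x] using congrFun d ⟨_, h⟩
    rcases lt_or_gt_of_ne c with c | c
    exacts [⟨i, j, c, d⟩, ⟨j, i, c, fun x h => (d x h).symm⟩]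
  choose i j c1 c2 using this
  let X : 𝒮 → Set ℕ := fun S => {m | ∃ n, g n + i S n ≤ m ∧ m < g n + j S n}
  have g1 : ∀ S n, g n + j S n < g (n + 1) + i S (n + 1) := fun S n => by
    have := (j S n).2; simp only [g, Finset.sum_range_succ]; omega
  have g2 : ∀ S n, g n + i S n < g n + j S n := fun S n => Nat.add_lt_add_left (c1 S n) _
  have g3 : ∀ S, StrictMono fun n => g n + i S n := fun S =>
    strictMono_nat_of_lt_succ fun n => (g2 S n).trans (g1 S n)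
  have g4 : ∀ S, StrictMono fun n => g n + j S n := fun S =>
    strictMono_nat_of_lt_succ fun n => (g1 S n).trans (g2 S _)
  have x1 : ∀ S, (X S).Infinite := fun S =>
    infinite_of_injective_forall_mem (g3 S).injective fun n => ⟨n, le_rfl, g2 S n⟩
  have x2 : ∀ S, (X S)ᶜ.Infinite := fun S =>
    infinite_of_injective_forall_mem (g4 S).injective fun n ⟨m, m1, m2⟩ => (g1 S n).not_ge
      (((g3 S).monotone ((g4 S).lt_iff_lt.1 m2)).trans m1)
  refine ⟨range X ∪ range fun S => (X S)ᶜ, ?_, fun a ⟨⟨l, hl⟩, ha⟩ => ?_,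
    (mk_union_le _ _).trans (add_le_add mk_range_le mk_range_le)⟩
  · rintro _ (⟨S, rfl⟩ | ⟨S, rfl⟩) <;> simp [x1, x2]
  set s := fun n => ∑ i ∈ Finset.range n, (a i : ℝ)
  obtain ⟨K, k1, k2⟩ := (Metric.isBounded_range_of_tendsto _ hl).exists_pos_norm_le
  have k3 : ∀ m, 0 ≤ (s m + K) / (2 * K) ∧ (s m + K) / (2 * K) ≤ 1 := fun m => by
    have := abs_le.1 (k2 _ ⟨m, rfl⟩)
    exact ⟨div_nonneg (by linarith) (by linarith), (div_le_one (by linarith)).2 (by linarith)⟩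
  let r : ∀ n, A n := fun n m => ⟨⌊2 ^ n * ((s (g n + m) + K) / (2 * K))⌋₊, Nat.lt_succ_of_le
    (Nat.floor_le_of_le (by simpa using (k3 _).2))⟩
  obtain ⟨S, s1, s2⟩ := h2 (fun n => e n (r n)) fun n => Fin.is_lt _
  obtain ⟨l', hl'⟩ := blocks (fun i => a i) s (fun n => Finset.sum_range_succ _ _) hl _ _
    (g2 ⟨S, s1⟩) (g1 ⟨S, s1⟩) (.of_norm_bounded_eventually_nat
      (summable_geometric_two.mul_left (2 * K)) (s2.mono fun n h => by
        have := congrArg (fun x : Fin _ => ((x : ℕ) : ℤ)) (c2 ⟨S, s1⟩ n _ h).symm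
        simp only [r] at this
        rw [Int.natCast_floor_eq_floor (by have := (k3 (g n + j ⟨S, s1⟩ n)).1; positivity),
          Int.natCast_floor_eq_floor (by have := (k3 (g n + i ⟨S, s1⟩ n)).1; positivity)] at this
        have := (Int.abs_sub_lt_one_of_floor_eq_floor this).le
        rw [← mul_sub, ← sub_div, add_sub_add_right_eq_sub, abs_mul, abs_div,
          abs_of_pos (by positivity), abs_of_pos (a := 2 * K) (by positivity), ← mul_div_assoc,
          div_le_one (by positivity), ← le_div_iff₀' (by positivity)] at this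
        simpa [div_eq_mul_inv] using this))
  have u : ∀ Y : Set ℕ, Y.Infinite → (Summable fun n => |(a (Nat.nth (· ∈ Y) n) : ℝ)|) →
      Summable (Y.indicator fun n => |(a n : ℝ)|) := fun Y h1 h2 =>
    ((Nat.nth_injective h1).summable_iff fun x hx => indicator_of_notMem (fun c =>
      hx (Nat.subset_range_nth c)) _).1 (h2.congr fun n =>
        (indicator_of_mem (Nat.nth_mem_of_infinite h1 n) fun n => |(a n : ℝ)|).symm)
  by_cases c : Summable fun n => |(a (Nat.nth (· ∈ X ⟨S, s1⟩) n) : ℝ)|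
  · refine ⟨_, .inr ⟨⟨S, s1⟩, rfl⟩, ⟨l - l', (sub (x2 _) (fun i => a i) _).2
      ((hl.sub hl').congr fun n => ?_)⟩, fun d => ha ?_⟩
    · simp [s, indicator_compl, X]
    · simpa using (u _ (x1 _) c).add (u _ (x2 _) d)
  · exact ⟨_, .inl ⟨⟨S, s1⟩, rfl⟩, ⟨l', (sub (x1 _) (fun i => a i) _).2 hl'⟩, c⟩

theorem lc (b : ℕ → ℕ) : ∃ 𝒮 : Set (ℕ → Finset ℕ), (∀ S ∈ 𝒮, ∀ n, (S n).card ≤ 2 ^ n) ∧
    (∀ f : ℕ → ℕ, (∀ n, f n < b n) → ∃ S ∈ 𝒮, ∀ᶠ n in atTop, f n ∈ S n) ∧ #𝒮 = dLc b := by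
  unfold dLc
  refine csInf_mem (s := {c | ∃ 𝒮 : Set (ℕ → Finset ℕ), (∀ S ∈ 𝒮, ∀ n, (S n).card ≤ 2 ^ n) ∧
    (∀ f : ℕ → ℕ, (∀ n, f n < b n) → ∃ S ∈ 𝒮, ∀ᶠ n in atTop, f n ∈ S n) ∧ #𝒮 = c})
    ⟨_, {S | ∀ n, (S n).card ≤ 2 ^ n}, fun _ => id, fun f _ => ⟨fun n => {f n}, fun n => by
      simpa using Nat.one_le_two_pow, by simp⟩, rfl⟩

theorem upper {P : (ℕ → ℚ) → Prop} (hP : ∀ a, CC a → P a) : ss P ≤ max ℵ₀ (⨆ b, dLc b) := by
  obtain ⟨b, h⟩ := up
  obtain ⟨𝒮, s1, s2, s3⟩ := lc b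
  obtain ⟨𝒳, x1, x2, x3⟩ := h 𝒮 s1 s2
  have := (s3.le.trans (le_ciSup bddAbove_of_small b)).trans (le_max_right ℵ₀ _)
  refine le_trans ?_ (x3.trans (add_le_of_le (le_max_left _ _) this this))
  exact csInf_le' ⟨𝒳, x1, fun a h => (x2 a h).imp fun X h => ⟨h.1, hP _ h.2⟩, rfl⟩

theorem R (L M : ℕ) (e : ℕ × Fin L → ℕ) (he : Injective e) (τ : ℕ → Fin L → Bool) :
    μ {σ | ∀ k < M, ∃ t, σ (e (k, t)) ≠ τ k t} = (1 - 2⁻¹ ^ L) ^ M := by
  have h := Measure.infinitePi_map_curry (fun (_ : ℕ) (_ : Fin L) => uniformOn (univ : Set Bool))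
  rw [← Measure.map_infinitePi_infinitePi_of_inj (P := fun _ => uniformOn (univ : Set Bool)) he,
    Measure.map_map (by fun_prop) (by fun_prop)] at h
  have := congrArg (· (Set.pi (Finset.range M) fun k => {τ k}ᶜ)) h
  rw [Measure.map_apply (by fun_prop) (MeasurableSet.pi (to_countable _) fun _ _ =>
    (measurableSet_singleton _).compl), Measure.infinitePi_pi _ fun _ _ =>
    (measurableSet_singleton _).compl] at this
  convert this using 1
  · congr 1; ext σ; simp [funext_iff]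
  · simp only [prob_compl_eq_one_sub (measurableSet_singleton _), Measure.infinitePi_singleton,
      uniformOn_univ]
    simp

theorem nd {F : Set (ℕ → ℕ)} (h : #F < dd) : ∃ g : ℕ → ℕ, ∀ f ∈ F, ∃ᶠ n in atTop, f n < g n := by
  by_contra! c
  exact h.not_ge (csInf_le' ⟨F, fun g => by simpa using c g, rfl⟩)

theorem nc {ι : Type} (h : #ι < covN) (N : ι → Set (ℕ → Bool)) (hN : ∀ i, μ (N i) = 0) :
    ∃ σ, ∀ i, σ ∉ N i := by
  by_contra! c
  exact (mk_range_le.trans_lt h).not_ge (csInf_le' ⟨range N, by simpa, eq_univ_of_forall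
    (by simpa), rfl⟩)

theorem low (𝒳 : Set (Set ℕ)) (h0 : ∀ X ∈ 𝒳, X.Infinite ∧ Xᶜ.Infinite) (h1 : #𝒳 < dd)
    (h2 : #𝒳 < covN) : ∃ a, Conv a ∧ ∀ X ∈ 𝒳, ¬ ∃ l : ℝ,
      Tendsto (fun n => ∑ i ∈ Finset.range n, X.indicator (fun i => (a i : ℝ)) i) atTop (𝓝 l) := by
  classical
  have : ∀ j : ℕ, ∃ M, (1 - 2⁻¹ ^ (j + 1) : ENNReal) ^ M < (j : ENNReal)⁻¹ := fun j =>
    ((ENNReal.tendsto_pow_atTop_nhds_zero_of_lt_one (ENNReal.sub_lt_self (by simp) (by simp)
      (by simp))).eventually (gt_mem_nhds (by simp))).exists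
  choose M hM using this
  let W : Set ℕ → Set ℕ := fun X => {i | ¬(i + 1 ∈ X ↔ i ∈ X)}
  let w : Set ℕ → ℕ → ℕ := fun X => Nat.nth (· ∈ W X)
  have hW : ∀ X ∈ 𝒳, (W X).Infinite := fun X h => infinite_of_forall_exists_gt fun n => by
    by_contra! c
    have : ∀ m, n + 1 ≤ m → (m ∈ X ↔ n + 1 ∈ X) := fun m h => by
      induction m, h using Nat.le_induction with
      | base => rfl
      | succ m h ih => exact (by_contra fun d => (c m d).not_gt h :).trans ih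
    obtain ⟨a, a1, a2⟩ := (h0 X h).1.exists_gt n
    obtain ⟨b, b1, b2⟩ := (h0 X h).2.exists_gt n
    exact b1 ((this b b2).2 ((this a a2).1 a1))
  obtain ⟨g, hg⟩ := nd ((mk_image_le (f := fun X j => w X (j + M j * (j + 1)))).trans_lt h1)
  have e : ∀ i, ∃ j, i < g j + j := fun i => ⟨i + 1, by omega⟩
  have e1 : Tendsto (fun i => Nat.find (e i)) atTop atTop := tendsto_atTop.2 fun k =>
    (eventually_ge_atTop (∑ j ∈ Finset.range k, (g j + j))).mono fun i h =>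
      (Nat.le_find_iff _ _).2 fun m c => not_lt.2 ((Finset.single_le_sum (f := fun j => g j + j)
        (fun _ _ => Nat.zero_le _) (Finset.mem_range.2 c)).trans h)
  obtain ⟨σ, hσ⟩ := nc h2 (fun X => {σ | ∀ᶠ j in atTop, w X (j + M j * (j + 1)) < g j →
    ∀ k < M j, ∃ t : Fin (j + 1), σ (w X (j + (k * (j + 1) + t))) ≠
      decide (w X (j + (k * (j + 1) + t)) + 1 ∈ X.1)}) fun X => by
    simp only [eventually_atTop, ofPred_exists, measure_iUnion_null_iff]
    refine fun k => le_antisymm (le_of_forall_gt_imp_ge_of_dense fun ε hε => ?_) zero_le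
    obtain ⟨j, j1, j2, j3⟩ := ((hg _ ⟨X, X.2, rfl⟩).and_eventually ((eventually_ge_atTop k).and
      (ENNReal.tendsto_inv_nat_nhds_zero.eventually (gt_mem_nhds hε)))).exists
    refine le_trans (measure_mono fun σ h => h j j2 j1) (((R (j + 1) (M j) (fun p =>
      w X (j + (p.1 * (j + 1) + p.2))) (fun p q h => ?_) _).trans_lt (hM j)).trans j3).le
    have := Nat.add_left_cancel (Nat.nth_injective (hW _ X.2) h)
    have a := congrArg (· / (j + 1)) this
    have b := congrArg (· % (j + 1)) this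
    simp only [Nat.mul_comm _ (j + 1), Nat.mul_add_div j.succ_pos, Nat.div_eq_of_lt (Fin.is_lt _),
      Nat.mul_add_mod, Nat.mod_eq_of_lt (Fin.is_lt _), add_zero] at a b
    exact Prod.ext a (Fin.ext b)
  let s : ℕ → ℚ := fun i => (if σ i then 1 else -1) / (Nat.find (e i) + 1)
  have s0 : Tendsto (fun i => (s i : ℝ)) atTop (𝓝 0) := squeeze_zero_norm (fun i => by
    by_cases h : σ i <;> simp [s, h] <;> rw [abs_of_pos (by positivity)])
    (tendsto_one_div_add_atTop_nhds_zero_nat.comp e1)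
  let a : ℕ → ℚ := fun i => s i - Nat.casesOn i 0 s
  have k : ∀ (X : Set ℕ) n, ∑ i ∈ Finset.range (n + 1), X.indicator (fun i => (a i : ℝ)) i =
      X.indicator (fun _ => 1) (n + 1) * s n - ∑ i ∈ Finset.range (n + 1), (W X).indicator
        (fun i => (if i + 1 ∈ X then 1 else -1) * (s i : ℝ)) i := fun X n => by
    induction n with
    | zero => by_cases h : 0 ∈ X <;> by_cases h' : 1 ∈ X <;> simp [a, W, indicator, h, h']
    | succ n ih =>
      rw [Finset.sum_range_succ, ih, Finset.sum_range_succ _ (n + 1)]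
      by_cases h : n + 1 ∈ X <;> by_cases h' : n + 1 + 1 ∈ X <;>
        simp [a, W, indicator, h, h'] <;> ring
  refine ⟨a, ⟨0, (tendsto_add_atTop_iff_nat 1).1 (s0.congr fun n => by
    simpa [W] using (k univ n).symm)⟩, fun X hX ⟨l, hl⟩ => hσ ⟨X, hX⟩ ?_⟩
  have := (sub (hW X hX) _ _).2 ((tendsto_add_atTop_iff_nat 1).1 (((bdd_le_mul_tendsto_zero'
    (f := fun n => X.indicator (fun _ => (1 : ℝ)) (n + 1)) 1 (.of_forall fun n => by
      by_cases h : n + 1 ∈ X <;> simp [h]) s0).sub ((tendsto_add_atTop_iff_nat 1).2 hl)).congr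
        fun n => by rw [k, sub_sub_cancel]))
  obtain ⟨N, hN⟩ := Metric.cauchySeq_iff.1 this.cauchySeq 1 one_pos
  refine (eventually_ge_atTop N).mono fun j hj c k hk => by_contra fun d => ?_
  push Not at d
  refine (hN (j + k * (j + 1) + (j + 1)) (by omega) (j + k * (j + 1)) (by omega)).not_ge
    (le_trans ?_ (le_abs_self _))
  rw [Finset.sum_range_add, add_sub_cancel_left, Finset.sum_range]
  refine le_trans (by simp; field_simp; rfl) (Finset.card_nsmul_le_sum _ _ (1 / (j + 1) : ℝ)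
    fun t _ => ?_)
  have : Nat.find (e (w X (j + (k * (j + 1) + t)))) ≤ j := Nat.find_min' _
    (((Nat.nth_monotone (hW X hX) (by have := t.2; nlinarith)).trans_lt c).trans_le le_self_add)
  have := one_div_le_one_div_of_le (by positivity) (add_le_add_left (Nat.cast_le (α := ℝ).2 this) 1)
  have d := d t
  rw [add_assoc]
  by_cases h : w X (j + (k * (j + 1) + t)) + 1 ∈ X <;> simp only [h] at d <;>
    simpa [s, w, d, h, neg_div] using this

instance : IsProbabilityMeasure μ := by unfold μ; infer_instance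

theorem lower {P : (ℕ → ℚ) → Prop} (hP : ∀ a, CC a → P a) (hP' : ∀ a, P a → Conv a) :
    min dd covN ≤ ss P := by
  obtain ⟨b, h⟩ := up
  obtain ⟨𝒮, s1, s2, -⟩ := lc b
  obtain ⟨𝒳, x1, x2, -⟩ := h 𝒮 s1 s2
  refine le_csInf ⟨_, 𝒳, x1, fun a h => (x2 a h).imp fun X h => ⟨h.1, hP _ h.2⟩, rfl⟩ ?_
  rintro _ ⟨𝒳, x1, x2, rfl⟩
  have k : ∀ 𝒴 : Set (Set ℕ), 𝒴.Nonempty → (∀ X ∈ 𝒴, X.Infinite ∧ Xᶜ.Infinite) → #𝒴 < dd →
      #𝒴 < covN → ∃ a, CC a ∧ ∀ X ∈ 𝒴, ¬ Conv fun n => a (Nat.nth (· ∈ X) n) :=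
    fun 𝒴 ⟨Y, hY⟩ h0 h1 h2 => by
    obtain ⟨a, a1, a2⟩ := low 𝒴 h0 h1 h2
    exact ⟨a, ⟨a1, fun c => a2 Y hY ⟨_, (c.of_abs.indicator Y).hasSum.tendsto_sum_nat⟩⟩,
      fun X hX ⟨l, h⟩ => a2 X hX ⟨l, (sub (h0 X hX).1 (fun i => a i) l).1 h⟩⟩
  by_contra! c
  rw [lt_min_iff] at c
  have : 𝒳.Nonempty := by
    have : CC fun n => (-1) ^ n * (1 / (n + 1)) := ⟨by
      simpa [Conv] using Antitone.tendsto_alternating_series_of_tendsto_zero (fun _ _ _ => by
        beta_reduce; gcongr) (tendsto_one_div_add_atTop_nhds_zero_nat (𝕜 := ℝ)), fun c =>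
      Real.not_summable_natCast_inv ((summable_nat_add_iff 1).1 (c.congr fun n => by
        simp; positivity))⟩
    exact let ⟨X, h, _⟩ := x2 _ this; ⟨X, h⟩
  obtain ⟨a, a1, a2⟩ := k 𝒳 this x1 c.1 c.2
  obtain ⟨X, h1, h2⟩ := x2 a a1
  exact a2 X h1 (hP' _ h2)

end Pool.Agent.H.MP_d37bef_lc
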